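import Pool.Agent.Y560.TG.Stm
import Pool.Agent.H566P.REP2
import Pool.Agent.H533R2.VO.All

/-! Project TG, step PSL: if all classes over a point are small then the structure is thin. -/

set_option autoImplicit false

namespace Pool.Agent.Y993.TG

open Set MeasureTheory
open Pool.Agent.H899R2.VP (St Adj PIso BF IsoOn idOn inv comp zipSet)
open Pool.Agent.H533R2.VO (RS lift put OS Ic RIso Dich VC BlkV S_FINAL)
open Pool.Agent.H566P (ar R2 v2 a0 a1 lt ac co mk LA LL MB lab sh prec pull S_ACC S_MSG)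
open Pool.Agent.Y560.TG

/-- `σ` is an isomorphism in terms of the order, the action and the predicates. -/
def IsoR (R R' : R2) (σ : Equiv.Perm ℕ) : Prop :=
  (∀ x y, lt R' (σ x) (σ y) ↔ lt R x y) ∧ (∀ n x y, ac R' n (σ x) (σ y) ↔ ac R n x y) ∧
    ∀ n x, co R' n (σ x) ↔ co R n x

/-- `σ` is an isomorphism of ordered structures. -/
def IsoS (M N : St ar) (σ : Equiv.Perm ℕ) : Prop :=
  (∀ x y, N.1 (σ x) (σ y) = M.1 x y) ∧
    ∀ (i : ℕ) (v : Fin (ar i) → ℕ), N.2 i (⇑σ ∘ v) = M.2 i v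

theorem isoS_iff {M N : St ar} {σ : Equiv.Perm ℕ} :
    IsoS M N σ ↔ (∀ x y, N.1 (σ x) (σ y) = M.1 x y) ∧ IsoR M.2 N.2 σ := by
  constructor
  · rintro ⟨h1, h2⟩
    have e : pull N.2 σ = M.2 := by
      funext i v
      exact h2 i v
    refine ⟨h1, fun x y => ?_, fun n x y => ?_, fun n x => ?_⟩
    · rw [← e, Pool.Agent.H566P.REP2_lt_pull]
    · rw [← e, Pool.Agent.H566P.REP2_ac_pull]
    · rw [← e, Pool.Agent.H566P.REP2_co_pull]
  · rintro ⟨h1, h2, h3, h4⟩
    refine ⟨h1, fun i v => ?_⟩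
    have e : pull N.2 σ = M.2 := by
      refine R2_ext (fun x y => ?_) (fun n x y => ?_) (fun n x => ?_)
      · rw [Pool.Agent.H566P.REP2_lt_pull, h2]
      · rw [Pool.Agent.H566P.REP2_ac_pull, h3]
      · rw [Pool.Agent.H566P.REP2_co_pull, h4]
    exact congrFun (congrFun e i) v

theorem isoS_symm {M N : St ar} {σ : Equiv.Perm ℕ} (h : IsoS M N σ) : IsoS N M σ.symm := by
  refine ⟨fun x y => ?_, fun i v => ?_⟩
  · have := h.1 (σ.symm x) (σ.symm y)
    rw [Equiv.apply_symm_apply, Equiv.apply_symm_apply] at this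
    exact this.symm
  · have := h.2 i (⇑σ.symm ∘ v)
    rw [← Function.comp_assoc] at this
    simp only [Equiv.self_comp_symm, Function.id_comp] at this
    exact this.symm

theorem isoS_trans {M N P : St ar} {σ τ : Equiv.Perm ℕ} (h : IsoS M N σ) (h' : IsoS N P τ) :
    IsoS M P (σ.trans τ) := by
  refine ⟨fun x y => ?_, fun i v => ?_⟩
  · show P.1 (τ (σ x)) (τ (σ y)) = _
    rw [h'.1, h.1]
  · have := h'.2 i (⇑σ ∘ v)
    rw [h.2] at this
    exact this

theorem isoS_unique {M N N' : St ar} {σ : Equiv.Perm ℕ} (h : IsoS M N σ) (h' : IsoS M N' σ) :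
    N = N' := by
  refine Prod.ext ?_ ?_
  · funext x y
    obtain ⟨x, rfl⟩ := σ.surjective x
    obtain ⟨y, rfl⟩ := σ.surjective y
    rw [h.1, h'.1]
  · funext i v
    have hv : v = ⇑σ ∘ (⇑σ.symm ∘ v) := by
      rw [← Function.comp_assoc, Equiv.self_comp_symm, Function.id_comp]
    rw [hv, h.2, h'.2]

/-! ### Equivariance -/

section equi

variable {R R' : R2} {σ : Equiv.Perm ℕ}

theorem Q_perm (h : IsoR R R' σ) (y m v : ℕ) : Q R' (σ y) m (σ v) ↔ Q R y m v := by
  unfold Q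
  split_ifs
  · symm
    refine σ.exists_congr fun z => ?_
    rw [h.2.1, h.1]
  · exact h.2.1 _ _ _

theorem sl_perm (h : IsoR R R' σ) (y v w : ℕ) : sl R' (σ y) (σ v) (σ w) ↔ sl R y v w :=
  forall_congr' fun m => by rw [Q_perm h, Q_perm h]

theorem Ob_perm (h : IsoR R R' σ) (u v t : ℕ) : σ t ∈ Ob R' (σ u) (σ v) ↔ t ∈ Ob R u v := by
  show (∃ n m z w, ac R' n (σ v) z ∧ ac R' m (σ v) w ∧ ¬ lt R' (σ t) z ∧ ¬ lt R' w (σ t) ∧
    sl R' (σ u) z w) ↔ ∃ n m z w, ac R n v z ∧ ac R m v w ∧ ¬ lt R t z ∧ ¬ lt R w t ∧ sl R u z w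
  refine exists_congr fun n => exists_congr fun m => ?_
  symm
  refine σ.exists_congr fun z => σ.exists_congr fun w => ?_
  rw [h.2.1, h.2.1, h.1, h.1, sl_perm h]

theorem lc_perm (h : IsoR R R' σ) (Λ : ℕ → ℕ → Prop) (y z i : ℕ) :
    lc Λ R' (σ y) (σ z) i ↔ lc Λ R y z i := by
  unfold lc
  refine exists_congr fun n => ?_
  symm
  refine σ.exists_congr fun w => ?_
  rw [h.2.1]
  simp only [Q_perm h]

theorem fl_perm (h : IsoR R R' σ) (Λ : ℕ → ℕ → Prop) (y z i : ℕ) :
    fl Λ R' (σ y) (σ z) i ↔ fl Λ R y z i := by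
  unfold fl
  simp only [lc_perm h]

theorem bel_perm (h : IsoR R R' σ) (Λ : ℕ → ℕ → Prop) (y a b : ℕ) :
    bel Λ R' (σ y) (σ a) (σ b) ↔ bel Λ R y a b := by
  unfold bel
  simp only [fl_perm h, Ob_perm h]
  refine or_congr Iff.rfl (and_congr Iff.rfl (and_congr Iff.rfl ?_))
  refine exists_congr fun n => exists_congr fun m => ?_
  symm
  refine σ.exists_congr fun x => σ.exists_congr fun x' => ?_
  rw [h.2.1, h.2.1, sl_perm h, h.1]

theorem isoR_lb (h : IsoR R R' σ) (y : ℕ) : IsoR (lb R y) (lb R' (σ y)) σ := by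
  unfold lb
  refine ⟨fun a b => ?_, fun n a b => ?_, fun n a => ?_⟩
  · rw [lt_ex, lt_ex, h.1]
  · rw [ac_ex, ac_ex, h.2.1]
  · obtain ⟨k, rfl | rfl⟩ : ∃ k, n = 2 * k ∨ n = 2 * k + 1 := ⟨n / 2, by omega⟩
    · rw [co_ex_even, co_ex_even, h.2.2]
    · rw [co_ex_odd, co_ex_odd, Q_perm h]

theorem isoS_sha (h : IsoR R R' σ) (Λ : ℕ → ℕ → Prop) (y : ℕ) :
    IsoS (sha Λ R y) (sha Λ R' (σ y)) σ := by
  rw [isoS_iff]
  unfold sha
  refine ⟨fun a b => ?_, fun a b => ?_, fun n a b => ?_, fun n a => ?_⟩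
  · simp only [decide_eq_decide]
    exact bel_perm h Λ y a b
  · simp only
    rw [lt_mk, lt_mk, h.1, Ob_perm h]
  · simp only
    rw [ac_mk, ac_mk, h.2.1]
  · simp only
    rw [co_mk, co_mk, (isoR_lb h y).2.2]

theorem isoR_fla {M N : St ar} (h : IsoS M N σ) : IsoR (fla M) (fla N) σ := by
  rw [isoS_iff] at h
  obtain ⟨h1, h2, h3, h4⟩ := h
  unfold fla
  refine ⟨fun a b => ?_, fun n a b => ?_, fun n a => ?_⟩
  · rw [lt_mk, lt_mk]
    simp only [h1, h2, h4]
  · rw [ac_mk, ac_mk, h3]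
  · rw [co_mk, co_mk, h4]

end equi

theorem riso_iff' {R R' : R2} : RIso R R' ↔ ∃ σ, IsoR R R' σ := riso_iff

/-- isomorphisms from `IsoOn` -/
theorem isoR_of_isoOn {R R' : R2} {p : Set (ℕ × ℕ)} (h : IsoOn (lift R) (lift R') univ univ p) :
    ∃ σ : Equiv.Perm ℕ, IsoR R R' σ ∧ ∀ u ∈ p, σ u.1 = u.2 := by
  obtain ⟨e, he1, he⟩ := h.exists_equiv
  rw [piso_iff] at he
  obtain ⟨-, h2, h3, h4⟩ := he
  exact ⟨e, ⟨fun x y => (h2 (x, e x) rfl (y, e y) rfl).symm,
    fun n x y => (h3 n (x, e x) rfl (y, e y) rfl).symm, fun n x => (h4 n (x, e x) rfl).symm⟩, he1⟩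

theorem isoOn_of_isoR {R R' : R2} {σ : Equiv.Perm ℕ} (h : IsoR R R' σ) :
    IsoOn (lift R) (lift R') univ univ {u | u.2 = σ u.1} := by
  refine ⟨{u | u.2 = σ u.1}, Subset.rfl, ?_, ?_, fun x _ => ⟨σ x, rfl⟩,
    fun y _ => ⟨σ.symm y, by simp⟩⟩
  · intro u _
    exact ⟨mem_univ _, mem_univ _⟩
  · rw [piso_iff]
    refine ⟨?_, ?_, ?_, ?_⟩
    · rintro ⟨u, u'⟩ hu ⟨v, v'⟩ hv
      simp only [Set.mem_ofPred_eq] at hu hv
      subst hu hv
      exact σ.injective.eq_iff.symm
    · rintro ⟨u, u'⟩ hu ⟨v, v'⟩ hv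
      simp only [Set.mem_ofPred_eq] at hu hv
      subst hu hv
      exact (h.1 _ _).symm
    · rintro n ⟨u, u'⟩ hu ⟨v, v'⟩ hv
      simp only [Set.mem_ofPred_eq] at hu hv
      subst hu hv
      exact (h.2.1 _ _ _).symm
    · rintro n ⟨u, u'⟩ hu
      simp only [Set.mem_ofPred_eq] at hu
      subst hu
      exact (h.2.2 _ _).symm

/-! ### Measurability -/

section meas

theorem m_lt (x y : ℕ) : Measurable fun R : R2 => lt R x y := measurableSet_setOfPred.1 (meas_lt x y)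
theorem m_ac (n x y : ℕ) : Measurable fun R : R2 => ac R n x y :=
  measurableSet_setOfPred.1 (meas_ac n x y)
theorem m_co (n x : ℕ) : Measurable fun R : R2 => co R n x := measurableSet_setOfPred.1 (meas_co n x)

theorem m_Q (y m v : ℕ) : Measurable fun R : R2 => Q R y m v := by
  unfold Q
  split_ifs
  · exact Measurable.exists fun z => (m_ac _ _ _).and (m_lt _ _)
  · exact m_ac _ _ _

theorem m_sl (y v w : ℕ) : Measurable fun R : R2 => sl R y v w :=
  Measurable.forall fun _ => (m_Q _ _ _).iff (m_Q _ _ _)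

theorem m_Ob (u v t : ℕ) : Measurable fun R : R2 => t ∈ Ob R u v := by
  show Measurable fun R : R2 => ∃ n m z w, ac R n v z ∧ ac R m v w ∧ ¬ lt R t z ∧ ¬ lt R w t ∧
    sl R u z w
  exact Measurable.exists fun n => Measurable.exists fun m => Measurable.exists fun z =>
    Measurable.exists fun w => (m_ac _ _ _).and ((m_ac _ _ _).and ((m_lt _ _).not.and
      ((m_lt _ _).not.and (m_sl _ _ _))))

theorem m_lc (Λ : ℕ → ℕ → Prop) (y z i : ℕ) : Measurable fun R : R2 => lc Λ R y z i := by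
  unfold lc
  exact Measurable.exists fun n => Measurable.exists fun z' => (m_ac _ _ _).and
    (Measurable.forall fun m => (m_Q _ _ _).iff measurable_const)

theorem m_fl (Λ : ℕ → ℕ → Prop) (y z i : ℕ) : Measurable fun R : R2 => fl Λ R y z i := by
  unfold fl
  exact (m_lc _ _ _ _).and (Measurable.forall fun j => Measurable.forall fun _ =>
    (m_lc _ _ _ _).not)

theorem m_bel (Λ : ℕ → ℕ → Prop) (y a b : ℕ) : Measurable fun R : R2 => bel Λ R y a b := by
  unfold bel
  refine Measurable.or ?_ ?_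
  · exact Measurable.exists fun i => Measurable.exists fun j => (m_fl _ _ _ _).and
      ((m_fl _ _ _ _).and measurable_const)
  · refine Measurable.and ?_ (Measurable.and ?_ ?_)
    · exact Measurable.exists fun i => (m_fl _ _ _ _).and (m_fl _ _ _ _)
    · exact (m_Ob _ _ _).not
    · exact Measurable.exists fun n => Measurable.exists fun m => Measurable.exists fun x =>
        Measurable.exists fun x' => (m_ac _ _ _).and ((m_ac _ _ _).and ((m_sl _ _ _).and
          (m_lt _ _)))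

theorem m_lbco (y n a : ℕ) : Measurable fun R : R2 => co (lb R y) n a := by
  unfold lb
  obtain ⟨k, rfl | rfl⟩ : ∃ k, n = 2 * k ∨ n = 2 * k + 1 := ⟨n / 2, by omega⟩
  · simp only [co_ex_even]
    exact m_co _ _
  · simp only [co_ex_odd]
    exact m_Q _ _ _

theorem m_sha (Λ : ℕ → ℕ → Prop) (y : ℕ) : Measurable fun R : R2 => sha Λ R y := by
  unfold sha
  refine Measurable.prodMk ?_ ?_
  · refine measurable_pi_iff.2 fun a => measurable_pi_iff.2 fun b => ?_
    refine measurable_to_bool ?_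
    have := measurableSet_setOfPred.2 (m_bel Λ y a b)
    refine this.congr ?_
    ext R
    simp only [mem_preimage, mem_singleton_iff, decide_eq_true_eq, Set.mem_ofPred_eq]
  · refine meas_into (fun a b => ?_) (fun n a b => ?_) (fun n a => ?_)
    · simp only [lt_mk]
      exact measurableSet_setOfPred.2 ((m_lt _ _).and (m_Ob _ _ _))
    · simp only [ac_mk]
      exact meas_ac _ _ _
    · simp only [co_mk]
      exact measurableSet_setOfPred.2 (m_lbco _ _ _)

theorem m_adj (a b : ℕ) : Measurable fun M : St ar => M.1 a b = true := by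
  have h1 : Measurable (fun M : St ar => M.1 a b) :=
    (measurable_pi_apply b).comp ((measurable_pi_apply a).comp measurable_fst)
  exact measurableSet_setOfPred.1 (h1 (measurableSet_singleton true))

theorem m_lt2 (a b : ℕ) : Measurable fun M : St ar => lt M.2 a b := (m_lt a b).comp measurable_snd
theorem m_co2 (n a : ℕ) : Measurable fun M : St ar => co M.2 n a := (m_co n a).comp measurable_snd
theorem m_ac2 (n a b : ℕ) : Measurable fun M : St ar => ac M.2 n a b :=
  (m_ac n a b).comp measurable_snd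

theorem m_fla : Measurable (fla : St ar → R2) := by
  refine meas_into (fun a b => ?_) (fun n a b => ?_) (fun n a => ?_)
  · simp only [fla, lt_mk]
    refine measurableSet_setOfPred.2 ((m_lt2 _ _).or (((m_adj _ _).or (m_adj _ _)).and
      (Measurable.or ?_ ?_)))
    · exact Measurable.exists fun k => ((m_co2 _ _).not.and (m_co2 _ _)).or
        ((m_co2 _ _).not.and ((m_co2 _ _).not.and (m_co2 _ _)))
    · exact (Measurable.forall fun m => (m_co2 _ _).iff (m_co2 _ _)).and (m_adj _ _)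
  · simp only [fla, ac_mk]
    exact measurableSet_setOfPred.2 (m_ac2 _ _ _)
  · simp only [fla, co_mk]
    exact measurableSet_setOfPred.2 (m_co2 _ _)

theorem m_fix (Λ : ℕ → ℕ → Prop) (y : ℕ) : MeasurableSet {M : St ar | sha Λ (fla M) y = M} := by
  have hm : Measurable (fun M : St ar => sha Λ (fla M) y) := (m_sha Λ y).comp m_fla
  have e : {M : St ar | sha Λ (fla M) y = M} =
      (⋂ a : ℕ, ⋂ b : ℕ, {M : St ar | (sha Λ (fla M) y).1 a b = M.1 a b}) ∩
        ⋂ i : ℕ, ⋂ v : Fin (ar i) → ℕ, {M : St ar | (sha Λ (fla M) y).2 i v = M.2 i v} := by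
    ext M
    simp only [mem_inter_iff, mem_iInter, Set.mem_ofPred_eq]
    constructor
    · intro h
      exact ⟨fun x y => by rw [h], fun i v => by rw [h]⟩
    · rintro ⟨h1, h2⟩
      exact Prod.ext (funext fun x => funext fun y => h1 x y) (funext fun i => funext fun v =>
        h2 i v)
  rw [e]
  refine MeasurableSet.inter ?_ ?_
  · refine MeasurableSet.iInter fun a => MeasurableSet.iInter fun b => ?_
    have h1 : Measurable (fun M : St ar => M.1 a b) :=
      (measurable_pi_apply b).comp ((measurable_pi_apply a).comp measurable_fst)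
    exact measurableSet_eq_fun (h1.comp hm) h1
  · refine MeasurableSet.iInter fun i => MeasurableSet.iInter fun v => ?_
    have h1 : Measurable (fun M : St ar => M.2 i v) :=
      (measurable_pi_apply v).comp ((measurable_pi_apply i).comp measurable_snd)
    exact measurableSet_eq_fun (h1.comp hm) h1

theorem m_bf {Ω : Type} [MeasurableSpace Ω] {Φ : Ω → R2} (hΦ : Measurable Φ) (R : R2)
    {β : Ordinal.{0}} (hβ : β < Ordinal.omega 1) (p : Set (ℕ × ℕ)) :
    MeasurableSet {ω | BF (lift R) (lift (Φ ω)) univ univ β p} := by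
  have hlift : Measurable (fun ω => (lift (Φ ω) : St ar)) := measurable_const.prodMk hΦ
  exact msg ar (lift R) univ Ω (fun ω => lift (Φ ω)) (fun _ => univ) hlift (fun z => by simp)
    β hβ p

end meas

/-! ### Structures in which all elements are named -/

theorem iso_named {M N : R2} {O Y : Set ℕ} {o : Ordinal.{0}} (ho : 1 < o)
    (hk : ∀ w ∈ O, ∃ k, co M k w ∧ ∀ w' ∈ O, co M k w' → w' = w)
    (h : BF (lift M) (lift N) O Y o ∅) : IsoOn (lift M) (lift N) O Y ∅ := by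
  have key : ∀ w ∈ O, ∀ w' ∈ Y, (∀ k, co M k w ↔ co N k w') → ∀ x ∈ O, ∀ x' ∈ Y,
      (∀ k, co M k x ↔ co N k x') → PIso (lift M) (lift N) {(x, x'), (w, w')} := by
    intro w hw w' hw' hc x hx x' hx' hd
    obtain ⟨w1, hw1, hb1⟩ := h.back ho hw'
    obtain ⟨x1, hx1, hb2⟩ := hb1.back one_pos hx'
    have hp := hb2.piso
    have e1 : w1 = w := by
      obtain ⟨k, hk1, hk2⟩ := hk w hw
      refine hk2 w1 hw1 ?_
      rw [piso_co hp (x := w1) (x' := w') (by simp), ← hc]
      exact hk1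
    have e2 : x1 = x := by
      obtain ⟨k, hk1, hk2⟩ := hk x hx
      refine hk2 x1 hx1 ?_
      rw [piso_co hp (x := x1) (x' := x') (by simp), ← hd]
      exact hk1
    rw [e1, e2] at hp
    refine hp.mono ?_
    intro u hu
    simpa using hu
  refine ⟨{u | u.1 ∈ O ∧ u.2 ∈ Y ∧ ∀ k, co M k u.1 ↔ co N k u.2}, empty_subset _, ?_, ?_, ?_, ?_⟩
  · intro u hu
    exact ⟨hu.1, hu.2.1⟩
  · rw [piso_iff]
    refine ⟨?_, ?_, ?_, ?_⟩
    · rintro ⟨x, x'⟩ ⟨h1, h2, h3⟩ ⟨w, w'⟩ ⟨h4, h5, h6⟩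
      exact piso_eq (key w h4 w' h5 h6 x h1 x' h2 h3) (by simp) (by simp)
    · rintro ⟨x, x'⟩ ⟨h1, h2, h3⟩ ⟨w, w'⟩ ⟨h4, h5, h6⟩
      exact piso_lt (key w h4 w' h5 h6 x h1 x' h2 h3) (by simp) (by simp)
    · rintro n ⟨x, x'⟩ ⟨h1, h2, h3⟩ ⟨w, w'⟩ ⟨h4, h5, h6⟩
      exact piso_ac (key w h4 w' h5 h6 x h1 x' h2 h3) (by simp) (by simp)
    · rintro n ⟨x, x'⟩ ⟨h1, h2, h3⟩
      exact h3 n
  · intro x hx
    obtain ⟨y, hy, hb⟩ := h.forth ho hx
    exact ⟨y, hx, hy, fun k => piso_co hb.piso (by simp)⟩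
  · intro y hy
    obtain ⟨x, hx, hb⟩ := h.back ho hy
    exact ⟨x, hx, hy, fun k => piso_co hb.piso (by simp)⟩

theorem iso_pull (R : R2) {e : ℕ → ℕ} (he : Function.Injective e) :
    IsoOn (lift (pull R e)) (lift R) univ (range e) ∅ := by
  refine ⟨{w | w.2 = e w.1}, empty_subset _, ?_, ⟨?_, ?_, ?_⟩, ?_, ?_⟩
  · rintro ⟨u, v⟩ huv
    exact ⟨trivial, ⟨u, huv.symm⟩⟩
  · rintro ⟨u, u'⟩ hu ⟨v, v'⟩ hv
    simp only [Set.mem_ofPred_eq] at hu hv
    simp only
    rw [hu, hv]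
    exact he.eq_iff.symm
  · rintro ⟨u, u'⟩ _ ⟨v, v'⟩ _
    rfl
  · intro i t ht
    have h1 : (fun k => (t k).2) = e ∘ fun k => (t k).1 := funext fun k => ht k
    show pull R e i (fun k => (t k).1) = R i (fun k => (t k).2)
    rw [h1]
    rfl
  · intro u _
    exact ⟨e u, rfl⟩
  · rintro v ⟨u, rfl⟩
    exact ⟨u, rfl⟩

theorem riso_pull {M N : R2} {h e : ℕ → ℕ} (hh : Function.Injective h)
    (he : Function.Injective e) (hi : IsoOn (lift M) (lift N) (range h) (range e) ∅) :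
    RIso (pull M h) (pull N e) := by
  rw [riso_isoOn]
  exact iso_trans0 (iso_pull M hh) (iso_trans0 hi (iso_symm0 (iso_pull N he)))

theorem infinite_of_iso {M N : R2} {X Y : Set ℕ} {p : Set (ℕ × ℕ)}
    (h : IsoOn (lift M) (lift N) X Y p) (hY : Y.Infinite) : X.Infinite := by
  obtain ⟨q, -, h2, h3, -, h5⟩ := h
  choose! f hf using h5
  refine Set.infinite_of_injOn_mapsTo (f := f) (s := Y) ?_ ?_ hY
  · intro a ha b hb hab
    exact h3.snd_eq (hf a ha) (hf b hb) hab
  · intro a ha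
    exact (h2 (hf a ha)).1

open Classical in
/-- an enumeration of an infinite set -/
noncomputable def enu (X : Set ℕ) : ℕ → ℕ := Nat.nth (· ∈ X)

theorem enu_inj {X : Set ℕ} (h : X.Infinite) : Function.Injective (enu X) :=
  Nat.nth_injective h
theorem enu_range {X : Set ℕ} (h : X.Infinite) : range (enu X) = X :=
  Nat.range_nth_of_infinite h

theorem t_PSL (hG : S_GEO) (hT : S_TRQ) (hB : S_MBF) (hL : S_LABQ) (hP : S_BP) (hS : S_SHA) :
    S_PSL := by
  intro Γ _ g hg R y β γ hMB hβ hβγ hγ hFew hSm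
  have hωγ : Ordinal.omega0 ≤ γ := (hβ.trans (le_self_add)).trans hβγ
  have h1β : (1 : Ordinal.{0}) < β := Ordinal.one_lt_omega0.trans_le hβ
  have hβ1γ : β + 1 < γ := by
    refine lt_of_lt_of_le ?_ hβγ
    have : (1 : Ordinal.{0}) < 2 := by norm_num
    gcongr
  have hβ1 : β + 1 < Ordinal.omega 1 := hβ1γ.trans hγ
  obtain ⟨Λ, hΛ⟩ := hL Γ g hg R γ hMB hωγ hγ hFew
  set K : Set R2 := {Y | BF (lift R) (lift Y) univ univ γ ∅} with hK
  have hKm : MeasurableSet K := m_bf measurable_id R hγ ∅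
  have hKMB : ∀ Y ∈ K, MB g ⊤ Y := fun Y hY => hB Γ g hg R Y hMB (BF.mono hY hωγ)
  have hsha : ∀ Y ∈ K, ∀ y', OS (sha Λ Y y') ∧ (∀ x, Ic (sha Λ Y y') x x = Ob Y y' x) ∧
      fla (sha Λ Y y') = Y := fun Y hY y' => hS Γ g hg Λ Y y' (hKMB Y hY) (hΛ Y hY y')
  -- all classes are small
  have hSm' : ∀ z, Sm β (lb R y) (Ob R y z) := by
    intro z
    by_cases hz : orb R y z
    · refine ⟨fun _ => (lb R y, Ob R y z), fun N Y h => ⟨0, ?_⟩⟩
      refine iso_named h1β ?_ h
      have hO : Ob R y z = {w | orb R y w} := (hG Γ g hg R hMB).2.2.2.2.2.2.2.2.1 y z |>.2 z hz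
      rw [hO]
      intro w hw
      obtain ⟨t, ht, -⟩ := MB.la hMB
      obtain ⟨k, hk⟩ := hw
      have hkk := (la_ac ht _ _ _).1 hk
      refine ⟨2 * (2 * k + 1) + 1, ?_, ?_⟩
      · unfold lb
        rw [co_ex_odd, Q_odd_iff ht, hkk]
      · intro w' _ hw'
        unfold lb at hw'
        rw [co_ex_odd, Q_odd_iff ht, hkk] at hw'
        exact hw'.symm
    · exact hSm z hz
  choose f hf using hSm'
  let F : ℕ → R2 := fun m => pull (f m.unpair.1 m.unpair.2).1 (enu (f m.unpair.1 m.unpair.2).2)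
  let V : R2 → Prop := fun T => ∃ n, RIso (F n) T
  have hVC : VC V := fun B _ _ hBV => Or.inl ⟨F, hBV⟩
  let B' : Set (St ar) := {M | ∃ y', BF (lift R) (lift (fla M)) univ univ (β + 1) {(y, y')} ∧
    fla M ∈ K ∧ sha Λ (fla M) y' = M}
  have hB'm : MeasurableSet B' := by
    refine measurableSet_setOfPred.2 (Measurable.exists fun y' => Measurable.and ?_
      (Measurable.and ?_ ?_))
    · exact measurableSet_setOfPred.1 (m_bf m_fla R hβ1 _)
    · exact measurableSet_setOfPred.1 (m_fla hKm)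
    · exact measurableSet_setOfPred.1 (m_fix Λ y')
  have hinv : ∀ M N : St ar, ∀ σ : Equiv.Perm ℕ, IsoS M N σ → M ∈ B' → N ∈ B' := by
    rintro M N σ h ⟨y', h1, h2, h3⟩
    have hf' := isoR_fla h
    have hi := isoOn_of_isoR hf'
    refine ⟨σ y', ?_, ?_, ?_⟩
    · refine (h1.comp (hi.bf _)).subset ?_
      rintro u hu
      rw [mem_singleton_iff] at hu
      subst hu
      exact ⟨y', rfl, rfl⟩
    · exact bf_trans0 h2 ((hi.mono (empty_subset _)).bf _)
    · have h4 := isoS_sha hf' Λ y'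
      rw [h3] at h4
      exact isoS_unique h4 h
  have hB'V : ∀ M ∈ B', OS M ∧ BlkV V M := by
    rintro M ⟨y', h1, h2, h3⟩
    obtain ⟨h4, h5, -⟩ := hsha _ h2 y'
    rw [h3] at h4 h5
    refine ⟨h4, ?_⟩
    intro x e he hex
    obtain ⟨z, -, hz⟩ := h1.back (lt_add_one β) (mem_univ x)
    have h6 := hT.2.2.1 R (fla M) _ y y' z x β hβ hz (by simp) (by simp)
    have h7 : BF (lift (lb R y)) (lift (lb (fla M) y')) (Ob R y z) (Ob (fla M) y' x) β ∅ :=
      h6.subset (empty_subset _)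
    obtain ⟨n, hn⟩ := hf z _ _ h7
    have hr : range e = Ob (fla M) y' x := by
      rw [← h5]
      ext w
      rw [hex w]
      rfl
    have hinf : (Ob (fla M) y' x).Infinite := by
      rw [← hr]
      exact Set.infinite_range_of_injective he
    have hinf2 := infinite_of_iso hn hinf
    refine ⟨Nat.pair z n, ?_⟩
    have e1 : F (Nat.pair z n) = pull (f z n).1 (enu (f z n).2) := by
      show pull _ _ = _
      rw [Nat.unpair_pair]
    have e2 : (fun (i : ℕ) (v : Fin (ar i) → ℕ) => M.2 i (e ∘ v)) = pull (lb (fla M) y') e := by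
      show pull M.2 e = _
      have e3 : ∀ a b, e b ∈ Ob (fla M) y' (e a) := by
        intro a b
        have ha : e a ∈ Ob (fla M) y' x := by rw [← hr]; exact ⟨a, rfl⟩
        have hb : e b ∈ Ob (fla M) y' x := by rw [← hr]; exact ⟨b, rfl⟩
        rwa [(hG Γ g hg (fla M) (hKMB _ h2)).2.1 y' x (e a) ha]
      refine R2_ext (fun a b => ?_) (fun n a b => ?_) (fun n a => ?_)
      · rw [Pool.Agent.H566P.REP2_lt_pull, Pool.Agent.H566P.REP2_lt_pull]
        conv_lhs => rw [← h3]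
        unfold sha lb
        simp only
        rw [lt_mk, lt_ex]
        exact and_iff_left (e3 a b)
      · rw [Pool.Agent.H566P.REP2_ac_pull, Pool.Agent.H566P.REP2_ac_pull]
        conv_lhs => rw [← h3]
        unfold sha lb
        simp only
        rw [ac_mk, ac_ex]
      · rw [Pool.Agent.H566P.REP2_co_pull, Pool.Agent.H566P.REP2_co_pull]
        conv_lhs => rw [← h3]
        unfold sha
        simp only
        rw [co_mk]
    rw [e1, e2]
    refine riso_pull (enu_inj hinf2) he ?_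
    rw [enu_range hinf2, hr]
    exact hn
  rcases Pool.Agent.H533R2.VO.final ar V hVC B' hB'm
    (fun M N σ h1 h2 => ⟨hinv M N σ ⟨h1, h2⟩, hinv N M σ.symm (isoS_symm ⟨h1, h2⟩)⟩) hB'V with
    ⟨c, hc⟩ | ⟨c, hc1, hc2, hc3⟩
  · refine ⟨fun n => fla (c n), fun W hW => ?_⟩
    obtain ⟨y', -, hy'⟩ := BF.forth hW hβ1γ (mem_univ y)
    obtain ⟨-, -, h4⟩ := hsha W hW y'
    have hm : sha Λ W y' ∈ B' := by
      refine ⟨y', ?_, ?_, ?_⟩
      · rw [h4]
        refine hy'.subset ?_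
        simp
      · rw [h4]; exact hW
      · rw [h4]
    obtain ⟨n, σ, h5, h6⟩ := hc _ hm
    refine ⟨n, riso_iff'.2 ⟨σ, ?_⟩⟩
    have h7 : IsoR (fla (c n)) (fla (sha Λ W y')) σ := isoR_fla ⟨h5, h6⟩
    rwa [h4] at h7
  · exfalso
    choose b hb1 hb2 hb3 using hc2
    obtain ⟨k1, hk1⟩ := hg 1
    have hbb : ∀ A n, b A = n ↔ co (c A).2 (4 * k1 + 3) n := by
      intro A n
      obtain ⟨t, ht, -⟩ := MB.la (hKMB _ (hb2 A))
      conv_rhs => rw [← hb3 A]
      unfold sha lb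
      simp only
      rw [co_mk, show 4 * k1 + 3 = 2 * (2 * k1 + 1) + 1 by ring, co_ex_odd, Q_odd_iff ht, hk1,
        ht.one]
    have hbm : Measurable b := by
      refine measurable_to_countable' fun n => ?_
      have e : b ⁻¹' {n} = {A | co (c A).2 (4 * k1 + 3) n} := by
        ext A
        exact hbb A n
      rw [e]
      exact measurableSet_setOfPred.2 ((m_co2 _ _).comp hc1.measurable)
    have hnc : ¬ Countable (ℕ → Bool) := by
      intro h
      obtain ⟨f, hf⟩ := exists_surjective_nat (ℕ → Bool)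
      obtain ⟨n, hn⟩ := hf (fun n => ! f n n)
      have := congrFun hn n
      simp at this
    refine hP K hKm ?_ (ℕ → Bool) hnc (fun A => fla (c A)) b (m_fla.comp hc1.measurable) hbm hb2 ?_
    · rintro ⟨d, hd1, hd2, hd3⟩
      exact hFew ⟨d, hd1, hd2, hd3⟩
    · intro A A' h
      obtain ⟨σ, hσ, hσ2⟩ := isoR_of_isoOn h
      have h2 := isoS_sha hσ Λ (b A)
      rw [hσ2 (b A, b A') rfl] at h2
      simp only at h2
      rw [hb3 A, hb3 A'] at h2
      exact hc3 A A' ⟨σ, h2.1, h2.2⟩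

end Pool.Agent.Y993.TG
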